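import Mathlib

/-!
# Project OO, package CORE (dimensions of Hom spaces in von Neumann regular categories)
-/

set_option autoImplicit false

universe u v

open CategoryTheory

namespace Pool.Agent.P8H29.OO

section core

variable {C : Type u} [Category.{v} C] [Preadditive C] [Linear ℚ C]

/-- `u ↦ a ≫ u ≫ b` -/
noncomputable def E {P Q : C} (a : P ⟶ P) (b : Q ⟶ Q) : (P ⟶ Q) →ₗ[ℚ] (P ⟶ Q) :=
  (Linear.leftComp ℚ Q a) ∘ₗ (Linear.rightComp ℚ P b)

@[simp] theorem E_apply {P Q : C} (a : P ⟶ P) (b : Q ⟶ Q) (u : P ⟶ Q) : E a b u = a ≫ u ≫ b := rfl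

/-- its trace -/
noncomputable def tau {P Q : C} (a : P ⟶ P) (b : Q ⟶ Q) : ℚ := LinearMap.trace ℚ (P ⟶ Q) (E a b)

theorem E_add_right {P Q : C} (a : P ⟶ P) (b b' : Q ⟶ Q) : E a (b + b') = E a b + E a b' := by
  ext u
  simp

theorem E_add_left {P Q : C} (a a' : P ⟶ P) (b : Q ⟶ Q) : E (a + a') b = E a b + E a' b := by
  ext u
  simp

theorem tau_add_right {P Q : C} (a : P ⟶ P) (b b' : Q ⟶ Q) : tau a (b + b') = tau a b + tau a b' := by
  unfold tau
  rw [E_add_right, map_add]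

theorem tau_add_left {P Q : C} (a a' : P ⟶ P) (b : Q ⟶ Q) : tau (a + a') b = tau a b + tau a' b := by
  unfold tau
  rw [E_add_left, map_add]

theorem E_one {P Q : C} : E (𝟙 P) (𝟙 Q) = LinearMap.id := by
  ext u
  simp

variable (hfin : ∀ X Y : C, Module.Finite ℚ (X ⟶ Y))

include hfin

theorem tau_one (P Q : C) : tau (𝟙 P) (𝟙 Q) = Module.finrank ℚ (P ⟶ Q) := by
  have := hfin P Q
  unfold tau
  rw [E_one, LinearMap.trace_id]

theorem tau_swap_right {P X Y : C} (c : P ⟶ P) (f : X ⟶ Y) (g : Y ⟶ X) : tau c (f ≫ g) = tau c (g ≫ f) := by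
  have := hfin P X
  have := hfin P Y
  unfold tau
  have h1 : E c (f ≫ g) = (Linear.rightComp ℚ P g) ∘ₗ ((Linear.leftComp ℚ Y c) ∘ₗ (Linear.rightComp ℚ P f)) := by
    ext u
    simp
  have h2 : E c (g ≫ f) = ((Linear.leftComp ℚ Y c) ∘ₗ (Linear.rightComp ℚ P f)) ∘ₗ (Linear.rightComp ℚ P g) := by
    ext u
    simp
  rw [h1, h2, LinearMap.trace_comp_comm']

theorem tau_swap_left {Q X Y : C} (c : Q ⟶ Q) (f : X ⟶ Y) (g : Y ⟶ X) : tau (f ≫ g) c = tau (g ≫ f) c := by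
  have := hfin X Q
  have := hfin Y Q
  unfold tau
  have h1 : E (f ≫ g) c = (Linear.leftComp ℚ Q f) ∘ₗ ((Linear.rightComp ℚ Y c) ∘ₗ (Linear.leftComp ℚ Q g)) := by
    ext u
    simp
  have h2 : E (g ≫ f) c = ((Linear.rightComp ℚ Y c) ∘ₗ (Linear.leftComp ℚ Q g)) ∘ₗ (Linear.leftComp ℚ Q f) := by
    ext u
    simp
  rw [h1, h2, LinearMap.trace_comp_comm']

theorem tau_idem {P Q : C} (a : P ⟶ P) (b : Q ⟶ Q) (ha : a ≫ a = a) (hb : b ≫ b = b) :
    tau a b = Module.finrank ℚ (LinearMap.range (E a b)) := by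
  have := hfin P Q
  have hid : IsIdempotentElem (E a b) := by
    unfold IsIdempotentElem
    ext u
    rw [Module.End.mul_apply, E_apply, E_apply]
    have e : a ≫ (a ≫ u ≫ b) ≫ b = (a ≫ a) ≫ u ≫ (b ≫ b) := by simp only [Category.assoc]
    rw [e, ha, hb]
  have hp := (LinearMap.isProj_range_iff_isIdempotentElem (E a b)).2 hid
  unfold tau
  exact hp.trace

theorem tau_idem_nonneg {P Q : C} (a : P ⟶ P) (b : Q ⟶ Q) (ha : a ≫ a = a) (hb : b ≫ b = b) : 0 ≤ tau a b := by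
  rw [tau_idem hfin a b ha hb]
  positivity

theorem tau_idem_le {P Q : C} (a : P ⟶ P) (b : Q ⟶ Q) (ha : a ≫ a = a) (hb : b ≫ b = b) :
    tau a b ≤ Module.finrank ℚ (P ⟶ Q) := by
  have := hfin P Q
  rw [tau_idem hfin a b ha hb]
  exact_mod_cast Submodule.finrank_le _

theorem tau_idem_zero {P Q : C} (a : P ⟶ P) (b : Q ⟶ Q) (ha : a ≫ a = a) (hb : b ≫ b = b) (h : tau a b = 0)
    (w : P ⟶ Q) (hw : a ≫ w ≫ b = w) : w = 0 := by
  have := hfin P Q
  rw [tau_idem hfin a b ha hb] at h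
  have h1 : Module.finrank ℚ (LinearMap.range (E a b)) = 0 := by exact_mod_cast h
  have h2 : LinearMap.range (E a b) = ⊥ := Submodule.finrank_eq_zero.1 h1
  have h3 : w ∈ LinearMap.range (E a b) := ⟨w, hw⟩
  rw [h2] at h3
  exact (Submodule.mem_bot ℚ).1 h3

theorem tau_idem_pos {X : C} (p : X ⟶ X) (hp : p ≫ p = p) (h0 : p ≠ 0) : 1 ≤ tau (𝟙 X) p := by
  rw [tau_idem hfin (𝟙 X) p (Category.comp_id _) hp]
  by_contra hcon
  push Not at hcon
  have h1 : Module.finrank ℚ (LinearMap.range (E (𝟙 X) p)) < 1 := by exact_mod_cast hcon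
  have h2 : tau (𝟙 X) p = 0 := by
    rw [tau_idem hfin (𝟙 X) p (Category.comp_id _) hp]
    have : Module.finrank ℚ (LinearMap.range (E (𝟙 X) p)) = 0 := by omega
    exact_mod_cast this
  exact h0 (tau_idem_zero hfin (𝟙 X) p (Category.comp_id _) hp h2 p (by rw [hp, Category.id_comp]))

variable (hreg : ∀ (X Y : C) (f : X ⟶ Y), ∃ g : Y ⟶ X, f ≫ g ≫ f = f)

include hreg

/-- the maximal pair -/
theorem exists_max (X Y : C) : ∃ (f : X ⟶ Y) (g : Y ⟶ X), f ≫ g ≫ f = f ∧ g ≫ f ≫ g = g ∧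
    ∀ h : X ⟶ Y, (𝟙 X - f ≫ g) ≫ h ≫ (𝟙 Y - g ≫ f) = h → h = 0 := by
  by_contra hno
  push Not at hno
  have key : ∀ k : ℕ, ∃ (f : X ⟶ Y) (g : Y ⟶ X), f ≫ g ≫ f = f ∧ g ≫ f ≫ g = g ∧
      (k : ℚ) ≤ tau (𝟙 X) (f ≫ g) := by
    intro k
    induction k with
    | zero =>
      refine ⟨0, 0, by simp, by simp, ?_⟩
      rw [Nat.cast_zero]
      exact tau_idem_nonneg hfin _ _ (Category.comp_id _) (by simp)
    | succ k ih =>
      obtain ⟨f, g, h1, h2, hk⟩ := ih
      obtain ⟨h, hh, hne⟩ := hno f g h1 h2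
      obtain ⟨x, hx⟩ : ∃ x : X ⟶ X, x = 𝟙 X - f ≫ g := ⟨_, rfl⟩
      obtain ⟨y, hy⟩ : ∃ y : Y ⟶ Y, y = 𝟙 Y - g ≫ f := ⟨_, rfl⟩
      rw [← hx, ← hy] at hh
      have fy : f ≫ y = 0 := by rw [hy, Preadditive.comp_sub, Category.comp_id, h1, sub_self]
      have xf : x ≫ f = 0 := by rw [hx, Preadditive.sub_comp, Category.id_comp, Category.assoc, h1, sub_self]
      have yg : y ≫ g = 0 := by rw [hy, Preadditive.sub_comp, Category.id_comp, Category.assoc, h2, sub_self]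
      have gx : g ≫ x = 0 := by rw [hx, Preadditive.comp_sub, Category.comp_id, h2, sub_self]
      have xx : x ≫ x = x := by
        nth_rewrite 2 [hx]
        rw [Preadditive.comp_sub, Category.comp_id, ← Category.assoc, xf, Limits.zero_comp, sub_zero]
      have yy : y ≫ y = y := by
        nth_rewrite 2 [hy]
        rw [Preadditive.comp_sub, Category.comp_id, ← Category.assoc, yg, Limits.zero_comp, sub_zero]
      have xh : x ≫ h = h := by
        conv_lhs => rw [← hh]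
        rw [← Category.assoc, xx, hh]
      have hy' : h ≫ y = h := by
        conv_lhs => rw [← hh]
        rw [Category.assoc, Category.assoc, yy, hh]
      obtain ⟨h₀, hh₀⟩ := hreg X Y h
      obtain ⟨h', hh'⟩ : ∃ h' : Y ⟶ X, h' = y ≫ h₀ ≫ x := ⟨_, rfl⟩
      have e1 : h ≫ h' ≫ h = h := by
        rw [hh']
        have : h ≫ (y ≫ h₀ ≫ x) ≫ h = (h ≫ y) ≫ h₀ ≫ (x ≫ h) := by simp only [Category.assoc]
        rw [this, hy', xh, hh₀]
      have yh' : y ≫ h' = h' := by rw [hh', ← Category.assoc, yy]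
      have h'x : h' ≫ x = h' := by rw [hh', Category.assoc, Category.assoc, xx]
      obtain ⟨k', hk'⟩ : ∃ k' : Y ⟶ X, k' = h' ≫ h ≫ h' := ⟨_, rfl⟩
      have yk : y ≫ k' = k' := by rw [hk', ← Category.assoc, yh']
      have kx : k' ≫ x = k' := by rw [hk', Category.assoc, Category.assoc, h'x]
      have e2 : h ≫ k' ≫ h = h := by
        rw [hk']
        have : h ≫ (h' ≫ h ≫ h') ≫ h = (h ≫ h' ≫ h) ≫ h' ≫ h := by simp only [Category.assoc]
        rw [this, e1, e1]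
      have e3 : k' ≫ h ≫ k' = k' := by
        rw [hk']
        have : (h' ≫ h ≫ h') ≫ h ≫ (h' ≫ h ≫ h') = h' ≫ (h ≫ h' ≫ h) ≫ h' ≫ h ≫ h' := by
          simp only [Category.assoc]
        rw [this, e1]
        have : h' ≫ h ≫ h' ≫ h ≫ h' = h' ≫ (h ≫ h' ≫ h) ≫ h' := by simp only [Category.assoc]
        rw [this, e1]
      -- the mixed products vanish
      have fk : f ≫ k' = 0 := by rw [← yk, ← Category.assoc, fy, Limits.zero_comp]
      have hg : h ≫ g = 0 := by rw [← hy', Category.assoc, yg, Limits.comp_zero]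
      have gh : g ≫ h = 0 := by rw [← xh, ← Category.assoc, gx, Limits.zero_comp]
      have kf : k' ≫ f = 0 := by rw [← kx, Category.assoc, xf, Limits.comp_zero]
      have e4 : (f + h) ≫ (g + k') = f ≫ g + h ≫ k' := by
        rw [Preadditive.add_comp, Preadditive.comp_add, Preadditive.comp_add, fk, hg, add_zero, zero_add]
      have e5 : (g + k') ≫ (f + h) = g ≫ f + k' ≫ h := by
        rw [Preadditive.add_comp, Preadditive.comp_add, Preadditive.comp_add, gh, kf, add_zero, zero_add]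
      refine ⟨f + h, g + k', ?_, ?_, ?_⟩
      · rw [e5, Preadditive.add_comp, Preadditive.comp_add, Preadditive.comp_add, h1, e2]
        have a1 : f ≫ k' ≫ h = 0 := by rw [← Category.assoc, fk, Limits.zero_comp]
        have a2 : h ≫ g ≫ f = 0 := by rw [← Category.assoc, hg, Limits.zero_comp]
        rw [a1, a2, add_zero, zero_add]
      · rw [e4, Preadditive.add_comp, Preadditive.comp_add, Preadditive.comp_add, h2, e3]
        have a1 : g ≫ h ≫ k' = 0 := by rw [← Category.assoc, gh, Limits.zero_comp]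
        have a2 : k' ≫ f ≫ g = 0 := by rw [← Category.assoc, kf, Limits.zero_comp]
        rw [a1, a2, add_zero, zero_add]
      · rw [e4, tau_add_right]
        have hidem : (h ≫ k') ≫ (h ≫ k') = h ≫ k' := by
          have : (h ≫ k') ≫ (h ≫ k') = (h ≫ k' ≫ h) ≫ k' := by simp only [Category.assoc]
          rw [this, e2]
        have hne2 : h ≫ k' ≠ 0 := by
          intro h0
          apply hne
          have : h = (h ≫ k') ≫ h := by rw [Category.assoc, e2]
          rw [this, h0, Limits.zero_comp]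
        have := tau_idem_pos hfin (h ≫ k') hidem hne2
        push_cast
        linarith
  obtain ⟨f, g, h1, _, hk⟩ := key (Module.finrank ℚ (X ⟶ X) + 1)
  have h3 := tau_idem_le hfin (𝟙 X) (f ≫ g) (Category.comp_id _)
    (by have : (f ≫ g) ≫ (f ≫ g) = (f ≫ g ≫ f) ≫ g := by simp only [Category.assoc]
        rw [this, h1])
  push_cast at hk
  linarith

end core

/-- **CORE** -/
theorem core_main : ∀ (𝒞 : Type u) [Category.{v} 𝒞] [Preadditive 𝒞] [Linear ℚ 𝒞],
    (∀ X Y : 𝒞, Module.Finite ℚ (X ⟶ Y)) →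
    (∀ (X Y : 𝒞) (f : X ⟶ Y), ∃ g : Y ⟶ X, f ≫ g ≫ f = f) → ∀ X Y : 𝒞,
    Module.finrank ℚ (X ⟶ Y) + Module.finrank ℚ (Y ⟶ X) ≤
        Module.finrank ℚ (X ⟶ X) + Module.finrank ℚ (Y ⟶ Y) ∧
      (Module.finrank ℚ (X ⟶ Y) + Module.finrank ℚ (Y ⟶ X) =
        Module.finrank ℚ (X ⟶ X) + Module.finrank ℚ (Y ⟶ Y) → Nonempty (X ≅ Y)) := by
  intro 𝒞 _ _ _ hfin hreg X Y
  obtain ⟨f, g, h1, h2, hmax⟩ := exists_max hfin hreg X Y
  obtain ⟨x, hx⟩ : ∃ x : X ⟶ X, x = 𝟙 X - f ≫ g := ⟨_, rfl⟩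
  obtain ⟨y, hy⟩ : ∃ y : Y ⟶ Y, y = 𝟙 Y - g ≫ f := ⟨_, rfl⟩
  rw [← hx, ← hy] at hmax
  have xf : x ≫ f = 0 := by rw [hx, Preadditive.sub_comp, Category.id_comp, Category.assoc, h1, sub_self]
  have yg : y ≫ g = 0 := by rw [hy, Preadditive.sub_comp, Category.id_comp, Category.assoc, h2, sub_self]
  have xx : x ≫ x = x := by
    nth_rewrite 2 [hx]
    rw [Preadditive.comp_sub, Category.comp_id, ← Category.assoc, xf, Limits.zero_comp, sub_zero]
  have yy : y ≫ y = y := by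
    nth_rewrite 2 [hy]
    rw [Preadditive.comp_sub, Category.comp_id, ← Category.assoc, yg, Limits.zero_comp, sub_zero]
  have hmax' : ∀ h : Y ⟶ X, y ≫ h ≫ x = h → h = 0 := by
    intro h hh
    obtain ⟨h₀, hh₀⟩ := hreg Y X h
    have hz : x ≫ h₀ ≫ y = 0 := by
      apply hmax
      have : x ≫ (x ≫ h₀ ≫ y) ≫ y = (x ≫ x) ≫ h₀ ≫ (y ≫ y) := by simp only [Category.assoc]
      rw [this, xx, yy]
    rw [← hh₀, ← hh]
    have : (y ≫ h ≫ x) ≫ h₀ ≫ (y ≫ h ≫ x) = y ≫ h ≫ (x ≫ h₀ ≫ y) ≫ h ≫ x := by simp only [Category.assoc]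
    rw [this, hz, Limits.zero_comp, Limits.comp_zero, Limits.comp_zero]
  have txy : tau x y = 0 := by
    unfold tau
    have : E x y = 0 := by
      ext u
      rw [E_apply, LinearMap.zero_apply]
      apply hmax
      have : x ≫ (x ≫ u ≫ y) ≫ y = (x ≫ x) ≫ u ≫ (y ≫ y) := by simp only [Category.assoc]
      rw [this, xx, yy]
    rw [this, map_zero]
  have tyx : tau y x = 0 := by
    unfold tau
    have : E y x = 0 := by
      ext u
      rw [E_apply, LinearMap.zero_apply]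
      apply hmax'
      have : y ≫ (y ≫ u ≫ x) ≫ x = (y ≫ y) ≫ u ≫ (x ≫ x) := by simp only [Category.assoc]
      rw [this, xx, yy]
    rw [this, map_zero]
  have eX : 𝟙 X = f ≫ g + x := by rw [hx]; abel
  have eY : 𝟙 Y = g ≫ f + y := by rw [hy]; abel
  have dXX := tau_one hfin X X
  have dYY := tau_one hfin Y Y
  have dXY := tau_one hfin X Y
  have dYX := tau_one hfin Y X
  rw [eX, tau_add_right, tau_add_left, tau_add_left] at dXX
  rw [eY, tau_add_right, tau_add_left, tau_add_left] at dYY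
  rw [eX, eY, tau_add_right, tau_add_left, tau_add_left] at dXY
  rw [eX, eY, tau_add_right, tau_add_left, tau_add_left] at dYX
  have c1 : tau (f ≫ g) (f ≫ g) = tau (f ≫ g) (g ≫ f) := tau_swap_right hfin (f ≫ g) f g
  have c2 : tau (g ≫ f) (g ≫ f) = tau (g ≫ f) (f ≫ g) := (tau_swap_right hfin (g ≫ f) f g).symm
  have c3 : tau (f ≫ g) x = tau (g ≫ f) x := tau_swap_left hfin x f g
  have c4 : tau (f ≫ g) y = tau (g ≫ f) y := tau_swap_left hfin y f g
  have c5 : tau x (f ≫ g) = tau x (g ≫ f) := tau_swap_right hfin x f g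
  have c6 : tau y (f ≫ g) = tau y (g ≫ f) := tau_swap_right hfin y f g
  have px := tau_idem_nonneg hfin x x xx xx
  have py := tau_idem_nonneg hfin y y yy yy
  constructor
  · have : ((Module.finrank ℚ (X ⟶ Y) + Module.finrank ℚ (Y ⟶ X) : ℕ) : ℚ) ≤
        ((Module.finrank ℚ (X ⟶ X) + Module.finrank ℚ (Y ⟶ Y) : ℕ) : ℚ) := by
      push_cast
      linarith
    exact_mod_cast this
  · intro heq
    have heq' : ((Module.finrank ℚ (X ⟶ Y) + Module.finrank ℚ (Y ⟶ X) : ℕ) : ℚ) =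
        ((Module.finrank ℚ (X ⟶ X) + Module.finrank ℚ (Y ⟶ Y) : ℕ) : ℚ) := by rw [heq]
    push_cast at heq'
    have zx : tau x x = 0 := by linarith
    have zy : tau y y = 0 := by linarith
    have x0 : x = 0 := tau_idem_zero hfin x x xx xx zx x (by rw [xx, xx])
    have y0 : y = 0 := tau_idem_zero hfin y y yy yy zy y (by rw [yy, yy])
    rw [x0, add_zero] at eX
    rw [y0, add_zero] at eY
    exact ⟨⟨f, g, eX.symm, eY.symm⟩⟩

end Pool.Agent.P8H29.OO
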