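import Mathlib

/-!
# Project OO, package LIN (linear algebra)
-/

set_option autoImplicit false

universe v w

open Polynomial

namespace Pool.Agent.P8H29.OO

section lin

variable {K : Type w} [Field K] {V : Type v} [AddCommGroup V] [Module K V]

theorem commute_aeval (P T : Module.End K V) (h : Commute P T) (p : K[X]) : Commute P (aeval T p) := by
  induction p using Polynomial.induction_on' with
  | add p q hp hq =>
    rw [map_add]
    exact hp.add_right hq
  | monomial n c =>
    rw [aeval_monomial]
    exact ((Algebra.commute_algebraMap_right c P).mul_right (h.pow_right n))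

theorem trace_aeval (P T : Module.End K V) (r : ℕ)
    (h : ∀ j, r ≤ j → LinearMap.trace K V (P * T ^ j) = 0) (p : K[X]) :
    LinearMap.trace K V (P * aeval T (p * X ^ r)) = 0 := by
  induction p using Polynomial.induction_on' with
  | add p q hp hq => rw [add_mul, map_add, mul_add, map_add, hp, hq, add_zero]
  | monomial n c =>
    have e : aeval T (monomial n c * X ^ r) = c • T ^ (n + r) := by
      rw [map_mul, aeval_monomial, map_pow, aeval_X, mul_assoc, ← pow_add, ← Algebra.smul_def]
    rw [e, mul_smul_comm, map_smul, h (n + r) (by omega), smul_zero]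

end lin

/-- **LIN** -/
theorem lin_main : ∀ (K : Type w) [Field K] (V : Type v) [AddCommGroup V] [Module K V]
    [Module.Finite K V] (P T : Module.End K V) (r : ℕ), Commute P T →
    (∀ j, r ≤ j → LinearMap.trace K V (P * T ^ j) = 0) → LinearMap.trace K V (P * T) = 0 := by
  intro K _ V _ _ _ P T r hc htr
  obtain ⟨f, hf⟩ : ∃ f : K[X], f = minpoly K T := ⟨_, rfl⟩
  have hint : IsIntegral K T := Algebra.IsIntegral.isIntegral T
  have hf0 : f ≠ 0 := by rw [hf]; exact minpoly.ne_zero hint
  have hfT : aeval T f = 0 := by rw [hf]; exact minpoly.aeval K T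
  obtain ⟨g, hg1, hg2⟩ := Polynomial.exists_eq_pow_rootMultiplicity_mul_and_not_dvd f hf0 0
  obtain ⟨m, hm⟩ : ∃ m : ℕ, m = f.rootMultiplicity 0 := ⟨_, rfl⟩
  rw [← hm, C_0, sub_zero] at hg1
  rw [C_0, sub_zero] at hg2
  have hcop : IsCoprime (X ^ r : K[X]) g :=
    ((Polynomial.irreducible_X.coprime_iff_not_dvd).2 hg2).pow_left
  obtain ⟨a, b, hab⟩ := hcop
  have hN : (aeval T (X * b * g)) ^ (m + 1) = 0 := by
    rw [← map_pow]
    have hdvd : f ∣ (X * b * g) ^ (m + 1) := by
      rw [hg1]
      refine ⟨X * b ^ (m + 1) * g ^ m, ?_⟩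
      ring
    obtain ⟨c, hc'⟩ := hdvd
    rw [hc', map_mul, hfT, zero_mul]
  have hT : T = aeval T (X * a * X ^ r) + aeval T (X * b * g) := by
    rw [← map_add]
    have : X * a * X ^ r + X * b * g = (X : K[X]) := by
      calc X * a * X ^ r + X * b * g = X * (a * X ^ r + b * g) := by ring
        _ = X := by rw [hab, mul_one]
    rw [this, aeval_X]
  have h1 := trace_aeval P T r htr (X * a)
  have h2 : LinearMap.trace K V (P * aeval T (X * b * g)) = 0 := by
    have hnil : IsNilpotent (P * aeval T (X * b * g)) := by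
      refine ⟨m + 1, ?_⟩
      rw [(commute_aeval P T hc _).mul_pow, hN, mul_zero]
    exact (LinearMap.isNilpotent_trace_of_isNilpotent hnil).eq_zero
  calc LinearMap.trace K V (P * T)
      = LinearMap.trace K V (P * (aeval T (X * a * X ^ r) + aeval T (X * b * g))) := by rw [← hT]
    _ = 0 := by rw [mul_add, map_add, h1, h2, add_zero]

end Pool.Agent.P8H29.OO
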